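import Mathlib

/-!
The combinatorial core: a 40-cell tile in four orientations on the lattice spanned by `(5, 5)` and
`(-4, 4)`; every row carries a free bit and every column carries a free bit.
-/

set_option autoImplicit false

namespace Pool.Agent.H413Z.Torus

/-- The cells of the tile. -/
def L : List (ℤ × ℤ) :=
  [(0, 0), (1, 0), (-1, 0), (0, 1), (0, -1), (2, 0), (1, 1), (1, -1), (-2, 0), (-1, 1), (-1, -1),
    (0, 2), (0, -2), (3, 0), (2, -1), (1, -2), (-3, 0), (-2, 1), (-2, -1), (-1, 2), (-1, -2),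
    (0, 3), (0, -3), (4, 0), (3, 1), (3, -1), (1, -3), (-3, -1), (-2, 2), (-2, -2), (-1, -3),
    (1, 3), (0, -4), (4, 1), (-3, -2), (-2, -3), (1, 4), (-3, -3), (-4, -3), (-3, -4)]

/-- Orientations: (row bit, column bit). -/
abbrev K : Type := ZMod 2 × ZMod 2

/-- The four reflections in the diagonals. -/
def fl (k : K) (p : ℤ × ℤ) : ℤ × ℤ :=
  if k.1 = 0 then (if k.2 = 0 then p else (p.2, p.1))
  else (if k.2 = 0 then (-p.2, -p.1) else (-p.1, -p.2))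

/-- The cell `z` lies in the tile of orientation `k` placed at `v`. -/
def Mem (k : K) (v z : ℤ × ℤ) : Prop := fl k (z.1 - v.1, z.2 - v.2) ∈ L

instance (k : K) (v z : ℤ × ℤ) : Decidable (Mem k v z) := by unfold Mem; infer_instance

/-- Lattice positions. -/
def pos (i j : ℤ) : ℤ × ℤ := (5 * i - 4 * j, 5 * i + 4 * j)

/-- The sign attached to a bit. -/
def sg (b : ZMod 2) : ℤ := if b = 0 then 1 else -1

lemma sg_cases (b : ZMod 2) : sg b = 1 ∨ sg b = -1 := by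
  unfold sg
  split_ifs <;> simp

lemma fl_fl (k : K) (p : ℤ × ℤ) : fl k (fl k p) = p := by
  unfold fl
  split_ifs <;> simp

lemma mem_self (k : K) (v : ℤ × ℤ) : Mem k v v := by
  have : fl k (0, 0) = (0, 0) := by
    unfold fl
    split_ifs <;> simp
  unfold Mem
  rw [sub_self, sub_self, this]
  simp [L]

lemma mem_shift {k : K} {v z : ℤ × ℤ} (w : ℤ × ℤ) :
    Mem k (v.1 + w.1, v.2 + w.2) (z.1 + w.1, z.2 + w.2) ↔ Mem k v z := by
  unfold Mem
  simp only [add_sub_add_right_eq_sub]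

lemma bound_chk : ∀ k : K, ∀ u ∈ L, -7 ≤ (fl k u).1 + (fl k u).2 ∧ (fl k u).1 + (fl k u).2 ≤ 7 ∧
    -4 ≤ (fl k u).2 - (fl k u).1 ∧ (fl k u).2 - (fl k u).1 ≤ 4 := by
  decide +kernel

lemma disj_chk : ∀ k k' : K, ∀ di ∈ [(-1 : ℤ), 0, 1], ∀ dj ∈ [(-1 : ℤ), 0, 1],
    (dj = 0 → k.1 = k'.1) → (di = 0 → k.2 = k'.2) → ∀ u ∈ L, Mem k' (pos di dj) (fl k u) →
      di = 0 ∧ dj = 0 := by
  decide +kernel

lemma cover_chk : ∀ r0 r1 c0 c1 : ZMod 2, ∀ s ∈ [(0 : ℤ), 1, 2, 3, 4, 5, 6, 7, 8, 9],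
    ∀ a ∈ [(-3 : ℤ), -2, -1, 0, 1, 2, 3, 4], 0 ≤ s - 2 * a → s - 2 * a < 8 →
      Mem (r0, c0) (pos 0 0) (a, s - a) ∨ Mem (r0, c1) (pos 1 0) (a, s - a) ∨
      Mem (r1, c0) (pos 0 1) (a, s - a) ∨ Mem (r1, c1) (pos 1 1) (a, s - a) := by
  decide +kernel

lemma forceA_chk : ∀ k k' : K, ∀ w ∈ L,
    (k'.1 = k.1 ∧ (fl k (1, 2)).1 - (fl k' w).1 = 5 * sg k.1 ∧
      (fl k (1, 2)).2 - (fl k' w).2 = 5 * sg k.1) ∨
    ∃ u ∈ L, Mem k' ((fl k (1, 2)).1 - (fl k' w).1, (fl k (1, 2)).2 - (fl k' w).2) (fl k u) := by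
  decide +kernel

lemma forceB_chk : ∀ k k' : K, ∀ w ∈ L,
    (k'.2 = k.2 ∧ (fl k (2, -2)).1 - (fl k' w).1 = 4 * sg k.2 ∧
      (fl k (2, -2)).2 - (fl k' w).2 = -4 * sg k.2) ∨
    ∃ u ∈ L, Mem k' ((fl k (2, -2)).1 - (fl k' w).1, (fl k (2, -2)).2 - (fl k' w).2) (fl k u) := by
  decide +kernel

/-- Tiles at different lattice points are disjoint, whatever the bits. -/
theorem disj (r c : ℤ → ZMod 2) {i j i' j' : ℤ} {z : ℤ × ℤ} (h : Mem (r j, c i) (pos i j) z)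
    (h' : Mem (r j', c i') (pos i' j') z) : i = i' ∧ j = j' := by
  have b1 := bound_chk (r j, c i) _ h
  have b2 := bound_chk (r j', c i') _ h'
  rw [fl_fl] at b1 b2
  simp only [pos] at b1 b2
  have h1 : i' - i ∈ [(-1 : ℤ), 0, 1] := by
    simp only [List.mem_cons, List.not_mem_nil, or_false]
    omega
  have h2 : j' - j ∈ [(-1 : ℤ), 0, 1] := by
    simp only [List.mem_cons, List.not_mem_nil, or_false]
    omega
  have h3 := disj_chk (r j, c i) (r j', c i') _ h1 _ h2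
    (fun e => by rw [show j' = j by omega]) (fun e => by rw [show i' = i by omega]) _ h (by
      rw [fl_fl]
      unfold Mem at h' ⊢
      convert h' using 3 <;> simp only [pos] <;> ring)
  omega

/-- The tiles at the lattice points cover the plane, whatever the bits. -/
theorem cover (r c : ℤ → ZMod 2) (z : ℤ × ℤ) : ∃ i j, Mem (r j, c i) (pos i j) z := by
  obtain ⟨i, hi⟩ : ∃ i, i = (z.1 + z.2) / 10 := ⟨_, rfl⟩
  obtain ⟨j, hj⟩ : ∃ j, j = (z.2 - z.1) / 8 := ⟨_, rfl⟩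
  have h := cover_chk (r j) (r (j + 1)) (c i) (c (i + 1)) (z.1 + z.2 - 10 * i)
    (by simp only [List.mem_cons, List.not_mem_nil, or_false]; omega) (z.1 - (5 * i - 4 * j))
    (by simp only [List.mem_cons, List.not_mem_nil, or_false]; omega) (by omega) (by omega)
  rcases h with h | h | h | h
  · refine ⟨i, j, ?_⟩
    unfold Mem at h ⊢
    convert h using 3 <;> simp only [pos] <;> ring
  · refine ⟨i + 1, j, ?_⟩
    unfold Mem at h ⊢
    convert h using 3 <;> simp only [pos] <;> ring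
  · refine ⟨i, j + 1, ?_⟩
    unfold Mem at h ⊢
    convert h using 3 <;> simp only [pos] <;> ring
  · refine ⟨i + 1, j + 1, ?_⟩
    unfold Mem at h ⊢
    convert h using 3 <;> simp only [pos] <;> ring

lemma all_int (Q : ℤ → Prop) (σ N : ℤ) (hσ : σ = 1 ∨ σ = -1) (hN : 0 < N) (h0 : Q 0)
    (hs : ∀ t, Q t → Q (t + σ)) (hp : ∀ t a, Q t → Q (t + N * a)) (t : ℤ) : Q t := by
  have h1 : ∀ u : ℕ, Q (σ * u) := by
    intro u
    induction u with
    | zero => simpa using h0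
    | succ u ih =>
      have := hs _ ih
      push_cast
      rwa [mul_add, mul_one]
  have h2 : 0 ≤ (σ * t) % N := Int.emod_nonneg _ hN.ne'
  obtain ⟨u, hu⟩ := Int.eq_ofNat_of_zero_le h2
  have h3 := hp _ (σ * ((σ * t) / N)) (h1 u)
  have h4 := Int.emod_add_mul_ediv (σ * t) N
  have h5 : σ * u + N * (σ * ((σ * t) / N)) = t := by
    rw [← hu]
    have : σ * σ = 1 := by rcases hσ with h | h <;> simp [h]
    linear_combination σ * h4 + t * this
  rwa [h5] at h3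

/-- Rigidity: a doubly periodic tiling by the four orientations is a lattice tiling with row bits
and column bits. -/
theorem rigid (Pl : K → ℤ × ℤ → Prop) (N : ℤ) (hN : 0 < N)
    (hcov : ∀ z, ∃ k v, Pl k v ∧ Mem k v z)
    (huniq : ∀ k v k' v' z, Pl k v → Pl k' v' → Mem k v z → Mem k' v' z → k = k' ∧ v = v')
    (hper : ∀ k v a b, Pl k v → Pl k (v.1 + N * a, v.2 + N * b))
    (k0 : K) (i0 j0 : ℤ) (h0 : Pl k0 (pos i0 j0)) :
    ∃ r c : ℤ → ZMod 2, ∀ k v, Pl k v ↔ ∃ i j, k = (r j, c i) ∧ v = pos i j := by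
  have step : ∀ (k : K) (v q : ℤ × ℤ) (G : K → ℤ × ℤ → Prop), q ∉ L → Pl k v →
      (∀ k' : K, ∀ w ∈ L, G k' ((fl k q).1 - (fl k' w).1, (fl k q).2 - (fl k' w).2) ∨
        ∃ u ∈ L, Mem k' ((fl k q).1 - (fl k' w).1, (fl k q).2 - (fl k' w).2) (fl k u)) →
      ∃ k' d, G k' d ∧ Pl k' (v.1 + d.1, v.2 + d.2) := by
    intro k v q G hq hP hG
    obtain ⟨k', v', hP', hM⟩ := hcov ((fl k q).1 + v.1, (fl k q).2 + v.2)
    have h1 := hG k' _ hM
    rw [fl_fl] at h1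
    rcases h1 with h1 | ⟨u, hu, h1⟩
    · refine ⟨k', _, h1, ?_⟩
      convert hP' using 2 <;> simp only <;> ring
    · exfalso
      have h2 : Mem k v ((fl k u).1 + v.1, (fl k u).2 + v.2) := by
        unfold Mem
        simp only [add_sub_cancel_right, Prod.mk.eta, fl_fl]
        exact hu
      have h3 : Mem k' v' ((fl k u).1 + v.1, (fl k u).2 + v.2) := by
        unfold Mem at h1 ⊢
        convert h1 using 3 <;> simp only <;> ring
      obtain ⟨rfl, rfl⟩ := huniq _ _ _ _ _ hP hP' h2 h3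
      unfold Mem at hM
      simp only [add_sub_cancel_right, Prod.mk.eta, fl_fl] at hM
      exact hq hM
  have rowA : ∀ k i j, Pl k (pos i j) → ∀ t, ∃ k' : K, k'.1 = k.1 ∧ Pl k' (pos (i + t) j) := by
    intro k i j hP
    refine all_int _ (sg k.1) N (sg_cases _) hN ⟨k, rfl, by simpa using hP⟩ ?_ ?_
    · rintro t ⟨k1, e1, h1⟩
      obtain ⟨k', d, ⟨e2, e3, e4⟩, h2⟩ := step k1 _ (1, 2)
        (fun k' d => k'.1 = k1.1 ∧ d.1 = 5 * sg k1.1 ∧ d.2 = 5 * sg k1.1) (by decide) h1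
        (forceA_chk k1)
      refine ⟨k', e2.trans e1, ?_⟩
      convert h2 using 1
      rw [e3, e4, e1]
      simp only [pos]
      congr 1 <;> ring
    · rintro t a ⟨k1, e1, h1⟩
      refine ⟨k1, e1, ?_⟩
      convert hper _ _ (5 * a) (5 * a) h1 using 1
      simp only [pos]
      congr 1 <;> ring
  have colB : ∀ k i j, Pl k (pos i j) → ∀ t, ∃ k' : K, k'.2 = k.2 ∧ Pl k' (pos i (j + t)) := by
    intro k i j hP
    refine all_int _ (-sg k.2) N (by rcases sg_cases k.2 with h | h <;> simp [h]) hN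
      ⟨k, rfl, by simpa using hP⟩ ?_ ?_
    · rintro t ⟨k1, e1, h1⟩
      obtain ⟨k', d, ⟨e2, e3, e4⟩, h2⟩ := step k1 _ (2, -2)
        (fun k' d => k'.2 = k1.2 ∧ d.1 = 4 * sg k1.2 ∧ d.2 = -4 * sg k1.2) (by decide) h1
        (forceB_chk k1)
      refine ⟨k', e2.trans e1, ?_⟩
      convert h2 using 1
      rw [e3, e4, e1]
      simp only [pos]
      congr 1 <;> ring
    · rintro t a ⟨k1, e1, h1⟩
      refine ⟨k1, e1, ?_⟩
      convert hper _ _ (-4 * a) (4 * a) h1 using 1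
      simp only [pos]
      congr 1 <;> ring
  have hall : ∀ i j, ∃ k, Pl k (pos i j) := by
    intro i j
    obtain ⟨k1, _, h1⟩ := rowA _ _ _ h0 (i - i0)
    obtain ⟨k2, _, h2⟩ := colB _ _ _ h1 (j - j0)
    exact ⟨k2, by simpa using h2⟩
  choose κ hκ using hall
  have same : ∀ k i j, Pl k (pos i j) → k = κ i j := fun k i j h =>
    (huniq _ _ _ _ _ h (hκ i j) (mem_self _ _) (mem_self _ _)).1
  have hform : ∀ i j, κ i j = ((κ 0 j).1, (κ i 0).2) := by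
    intro i j
    obtain ⟨k1, e1, h1⟩ := rowA _ _ _ (hκ 0 j) i
    obtain ⟨k2, e2, h2⟩ := colB _ _ _ (hκ i 0) j
    rw [zero_add] at h1 h2
    rw [← e1, ← e2, same _ _ _ h1, same _ _ _ h2]
  refine ⟨fun j => (κ 0 j).1, fun i => (κ i 0).2, fun k v => ⟨fun h => ?_, ?_⟩⟩
  · obtain ⟨i, j, hM⟩ := cover (fun j => (κ 0 j).1) (fun i => (κ i 0).2) v
    refine ⟨i, j, huniq _ _ _ _ v h ?_ (mem_self _ _) hM⟩
    rw [← hform]
    exact hκ i j
  · rintro ⟨i, j, rfl, rfl⟩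
    rw [← hform]
    exact hκ i j

lemma odd_part_unique {e e' : ℕ} {t t' : ℤ} (h : 2 ^ e * (2 * t + 1) = 2 ^ e' * (2 * t' + 1)) :
    t = t' := by
  wlog hle : e ≤ e' generalizing e e' t t'
  · exact (this h.symm (by omega)).symm
  obtain ⟨d, rfl⟩ := Nat.exists_eq_add_of_le hle
  rw [pow_add, mul_assoc] at h
  have h1 := mul_left_cancel₀ (by positivity) h
  rcases d with _ | d
  · simp only [pow_zero, one_mul] at h1
    omega
  · rw [pow_succ, mul_comm _ (2 : ℤ), mul_assoc] at h1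
    omega

/-- The paperfolding sequence. -/
lemma paper : ∃ f : ℤ → ZMod 2, ∀ (e : ℕ) (t : ℤ), f (2 ^ e * (2 * t + 1)) = t := by
  classical
  refine ⟨fun x => if h : ∃ p : ℕ × ℤ, x = 2 ^ p.1 * (2 * p.2 + 1) then (h.choose.2 : ZMod 2)
    else 0, fun e t => ?_⟩
  have h : ∃ p : ℕ × ℤ, 2 ^ e * (2 * t + 1) = 2 ^ p.1 * (2 * p.2 + 1) := ⟨(e, t), rfl⟩
  simp only [dif_pos h]
  rw [← odd_part_unique h.choose_spec]

lemma seqs : ∃ r c : ℤ → ZMod 2, ∀ g : ℕ, g ≠ 0 →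
    (∃ x : ℤ, ∀ i : ℤ, c (x + 4 * g * i) = c x + i) ∧
    (∃ y : ℤ, ∀ j : ℤ, r (y + 5 * g * j) = r y + j) := by
  obtain ⟨f, hf⟩ := paper
  have h2 : (2 : ZMod 2) = 0 := rfl
  refine ⟨fun y => if y % 5 = 0 then (y : ZMod 2) else f (y / 5), f, fun g hg => ?_⟩
  obtain ⟨e, o, ⟨q, rfl⟩, rfl⟩ := Nat.exists_eq_two_pow_mul_odd hg
  constructor
  · refine ⟨2 ^ (e + 1), fun i => ?_⟩
    have h0 := hf (e + 1) 0
    rw [mul_zero, zero_add, mul_one] at h0
    rw [h0, show (2 : ℤ) ^ (e + 1) + 4 * ((2 ^ e * (2 * q + 1) : ℕ) : ℤ) * i =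
      2 ^ (e + 1) * (2 * ((2 * q + 1) * i) + 1) by push_cast; ring, hf]
    push_cast
    rw [h2]
    ring
  · rcases e with _ | e
    · refine ⟨0, fun j => ?_⟩
      have h5 : (0 + 5 * ((2 ^ 0 * (2 * q + 1) : ℕ) : ℤ) * j) % 5 = 0 := by
        rw [zero_add, mul_assoc]
        exact Int.mul_emod_right _ _
      simp only [h5, if_true, Int.zero_emod]
      push_cast
      rw [h2, show (5 : ZMod 2) = 1 from rfl]
      ring
    · refine ⟨5 * 2 ^ e + 1, fun j => ?_⟩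
      have h0 := hf e 0
      rw [mul_zero, zero_add, mul_one] at h0
      have e1 : (5 * 2 ^ e + 1 + 5 * ((2 ^ (e + 1) * (2 * q + 1) : ℕ) : ℤ) * j) =
          5 * (2 ^ e * (2 * ((2 * q + 1) * j) + 1)) + 1 := by push_cast; ring
      have e2 : ∀ x : ℤ, ¬ (5 * x + 1) % 5 = 0 := fun x => by omega
      have e3 : ∀ x : ℤ, (5 * x + 1) / 5 = x := fun x => by omega
      simp only [e1, e2, if_false, e3, hf, h0]
      push_cast
      rw [h2]
      ring

/-- No set of tiles of the tiling with these bits is a fundamental domain of `n ℤ × m ℤ`. -/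
theorem no_torus (r c : ℤ → ZMod 2) (hs : ∀ g : ℕ, g ≠ 0 →
      (∃ x : ℤ, ∀ i : ℤ, c (x + 4 * g * i) = c x + i) ∧
      (∃ y : ℤ, ∀ j : ℤ, r (y + 5 * g * j) = r y + j))
    (m n : ℕ) (hm : 1 ≤ m) (hn : 1 ≤ n) (S : ℤ → ℤ → Prop)
    (h : ∀ z : ℤ × ℤ, ∃! l : ℤ × ℤ, ∃ i j, S i j ∧
      Mem (r j, c i) (pos i j) (z.1 - n * l.1, z.2 - m * l.2)) : False := by
  obtain ⟨Pl, hPl⟩ : ∃ Pl : K → ℤ × ℤ → Prop, ∀ k v, Pl k v ↔ ∃ i j a b : ℤ, S i j ∧
      k = (r j, c i) ∧ v = ((pos i j).1 + n * a, (pos i j).2 + m * b) :=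
    ⟨_, fun _ _ => Iff.rfl⟩
  have sh : ∀ (k : K) (v z : ℤ × ℤ) (a b : ℤ), Mem k (v.1 + n * a, v.2 + m * b) z ↔
      Mem k v (z.1 - n * a, z.2 - m * b) := by
    intro k v z a b
    rw [← mem_shift (v := v) (n * a, m * b)]
    simp
  have per : ∀ k v a b, Pl k v → Pl k (v.1 + n * a, v.2 + m * b) := by
    intro k v a b hP
    obtain ⟨i, j, a', b', h1, h2, rfl⟩ := (hPl _ _).1 hP
    refine (hPl _ _).2 ⟨i, j, a' + a, b' + b, h1, h2, ?_⟩
    simp only
    congr 1 <;> ring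
  obtain ⟨_, ⟨i0, j0, hS0, _⟩, _⟩ := h (0, 0)
  have h0 : Pl (r j0, c i0) (pos i0 j0) := (hPl _ _).2 ⟨i0, j0, 0, 0, hS0, rfl, by simp⟩
  obtain ⟨r', c', hrc⟩ := rigid Pl (n * m) (by positivity) (fun z => by
      obtain ⟨l, ⟨i, j, h1, h2⟩, _⟩ := h z
      exact ⟨_, _, (hPl _ _).2 ⟨i, j, l.1, l.2, h1, rfl, rfl⟩, (sh _ _ _ _ _).2 h2⟩)
    (fun k v k' v' z hP hP' hM hM' => by
      obtain ⟨i, j, a, b, h1, rfl, rfl⟩ := (hPl _ _).1 hP
      obtain ⟨i', j', a', b', h1', rfl, rfl⟩ := (hPl _ _).1 hP'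
      rw [sh] at hM hM'
      have e := (h z).unique (y₁ := (a, b)) (y₂ := (a', b')) ⟨i, j, h1, hM⟩ ⟨i', j', h1', hM'⟩
      obtain ⟨rfl, rfl⟩ := Prod.mk.inj e
      obtain ⟨rfl, rfl⟩ := disj r c hM hM'
      exact ⟨rfl, rfl⟩)
    (fun k v a b hP => by
      convert per k v (m * a) (n * b) hP using 2 <;> ring)
    _ _ _ h0
  have hn40 : ∃ n' : ℕ, n = 40 * n' := by
    obtain ⟨i, j, _, e⟩ := (hrc _ _).1 (per _ _ 1 0 h0)
    simp only [pos, Prod.mk.injEq] at e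
    exact ⟨n / 40, by omega⟩
  have hm40 : ∃ m' : ℕ, m = 40 * m' := by
    obtain ⟨i, j, _, e⟩ := (hrc _ _).1 (per _ _ 0 1 h0)
    simp only [pos, Prod.mk.injEq] at e
    exact ⟨m / 40, by omega⟩
  obtain ⟨n', rfl⟩ := hn40
  obtain ⟨m', rfl⟩ := hm40
  have hbez := Nat.gcd_eq_gcd_ab n' m'
  obtain ⟨g, hg⟩ : ∃ g, g = Nat.gcd n' m' := ⟨_, rfl⟩
  have hg0 : g ≠ 0 := by
    rw [hg]
    exact Nat.gcd_ne_zero_left (by omega)
  obtain ⟨n1, hn1⟩ : g ∣ n' := hg ▸ Nat.gcd_dvd_left _ _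
  obtain ⟨m1, hm1⟩ : g ∣ m' := hg ▸ Nat.gcd_dvd_right _ _
  rw [← hg] at hbez
  obtain ⟨⟨x, hx⟩, ⟨y, hy⟩⟩ := hs g hg0
  have h2 : (2 : ZMod 2) = 0 := rfl
  have key : ∀ ε : ℤ, r' y + c' (x + 4 * g * ε) = r y + c x + ε := by
    intro ε
    obtain ⟨i, j, a, b, _, e1, e2⟩ := (hPl _ _).1 ((hrc _ _).2 ⟨x + 4 * g * ε, y, rfl, rfl⟩)
    simp only [pos, Prod.mk.injEq] at e1 e2
    have hi : i = x + 4 * g * (ε - (n1 * a + m1 * b)) := by
      have : 10 * i = 10 * (x + 4 * g * (ε - (n1 * a + m1 * b))) := by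
        have e3 := e2.1
        have e4 := e2.2
        rw [hn1] at e3
        rw [hm1] at e4
        push_cast at e3 e4
        linear_combination -e3 - e4
      omega
    have hj : j = y + 5 * g * (n1 * a - m1 * b) := by
      have : 8 * j = 8 * (y + 5 * g * (n1 * a - m1 * b)) := by
        have e3 := e2.1
        have e4 := e2.2
        rw [hn1] at e3
        rw [hm1] at e4
        push_cast at e3 e4
        linear_combination e3 - e4
      omega
    rw [e1.1, e1.2, hi, hj, hx, hy]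
    push_cast
    linear_combination (-(m1 : ZMod 2) * b) * h2
  have hc : c' (x + 4 * g * 1) = c' (x + 4 * g * 0) := by
    obtain ⟨i, j, e1, e2⟩ := (hrc _ _).1 (per _ _ (Nat.gcdA n' m') (Nat.gcdB n' m')
      ((hrc _ _).2 ⟨x + 4 * g * 0, 0, rfl, rfl⟩))
    simp only [pos, Prod.mk.injEq] at e1 e2
    have hi : i = x + 4 * g * 1 := by
      have : 10 * i = 10 * (x + 4 * g * 1) := by
        have e3 := e2.1
        have e4 := e2.2
        push_cast at e3 e4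
        linear_combination -e3 - e4 - 40 * hbez
      omega
    rw [e1.2, hi]
  have k0 := key 0
  have k1 := key 1
  rw [hc, k0] at k1
  have : (0 : ZMod 2) = 1 := by
    push_cast at k1
    linear_combination k1
  exact absurd this (by decide)

end Pool.Agent.H413Z.Torus
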