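import Mathlib

/-!
Polyominoes, copies and tilings of the plane `ℝ × ℝ`.
-/

set_option autoImplicit false

namespace Pool.Agent.H413Z.Torus

open Set

/-- The cell `[a, a+1] × [b, b+1]` with index `p = (a, b)`. -/
def cell (p : ℤ × ℤ) : Set (ℝ × ℝ) :=
  Icc (p.1 : ℝ) (p.1 + 1) ×ˢ Icc (p.2 : ℝ) (p.2 + 1)

/-- Two cells share an edge. -/
def Adj (p q : ℤ × ℤ) : Prop := |p.1 - q.1| + |p.2 - q.2| = 1

/-- A polyomino: a finite nonempty edge-connected union of cells. -/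
def IsPolyomino (P : Set (ℝ × ℝ)) : Prop :=
  ∃ C : Finset (ℤ × ℤ), C.Nonempty ∧
    (∀ p ∈ C, ∀ q ∈ C, Relation.ReflTransGen (fun a b => a ∈ C ∧ b ∈ C ∧ Adj a b) p q) ∧
    P = ⋃ p ∈ C, cell p

/-- The isometries of the plane that map the grid onto itself:
`(x, y) ↦ (± x + a, ± y + b)` and `(x, y) ↦ (± y + a, ± x + b)` with `a, b` integers. -/
def IsGridIso (f : ℝ × ℝ → ℝ × ℝ) : Prop :=
  ∃ e₁ e₂ a b : ℤ, (e₁ = 1 ∨ e₁ = -1) ∧ (e₂ = 1 ∨ e₂ = -1) ∧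
    ((∀ x, f x = (e₁ * x.1 + a, e₂ * x.2 + b)) ∨ (∀ x, f x = (e₁ * x.2 + a, e₂ * x.1 + b)))

/-- `Q` is a copy of `P`. -/
def IsCopy (P Q : Set (ℝ × ℝ)) : Prop := ∃ f, IsGridIso f ∧ Q = f '' P

/-- The family `A` tiles the plane: it covers the plane and the interiors are pairwise disjoint. -/
def TilesPlane {ι : Type} (A : ι → Set (ℝ × ℝ)) : Prop :=
  ⋃ i, A i = univ ∧ Pairwise fun i j => Disjoint (interior (A i)) (interior (A j))

/-- `T` is a tiling of the plane by copies of `P`. -/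
def IsTiling (P : Set (ℝ × ℝ)) (T : Set (Set (ℝ × ℝ))) : Prop :=
  (∀ Q ∈ T, IsCopy P Q) ∧ TilesPlane fun Q : T => (Q : Set (ℝ × ℝ))

/-- `F` is a fundamental domain of the lattice `n ℤ × m ℤ`: its translates tile the plane. -/
def IsFundDomain (m n : ℕ) (F : Set (ℝ × ℝ)) : Prop :=
  TilesPlane fun l : ℤ × ℤ => (fun x : ℝ × ℝ => (x.1 + (n : ℝ) * l.1, x.2 + (m : ℝ) * l.2)) '' F

end Pool.Agent.H413Z.Torus
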