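import Pool.Agent.H413Z.Torus.Defs
import Pool.Agent.H413Z.Torus.Comb

/-!
From cells to subsets of the plane.
-/

set_option autoImplicit false

namespace Pool.Agent.H413Z.Torus

open Set

/-- The union of the cells with index in `C`. -/
def reg (C : Set (ℤ × ℤ)) : Set (ℝ × ℝ) := {x | ∃ p ∈ C, x ∈ cell p}

/-- The centre of a cell. -/
noncomputable def ctr (p : ℤ × ℤ) : ℝ × ℝ := ((p.1 : ℝ) + 1 / 2, (p.2 : ℝ) + 1 / 2)

lemma mem_cell {p : ℤ × ℤ} {x : ℝ × ℝ} :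
    x ∈ cell p ↔ ((p.1 : ℝ) ≤ x.1 ∧ x.1 ≤ p.1 + 1) ∧ ((p.2 : ℝ) ≤ x.2 ∧ x.2 ≤ p.2 + 1) :=
  Iff.rfl

lemma int_eq_of {a b : ℤ} {x : ℝ} (h1 : (a : ℝ) < x) (h2 : x < a + 1) (h3 : (b : ℝ) ≤ x)
    (h4 : x ≤ b + 1) : a = b := by
  have h5 : (a : ℝ) < b + 1 := by linarith
  have h6 : (b : ℝ) < a + 1 := by linarith
  have h7 : a < b + 1 := by exact_mod_cast h5
  have h8 : b < a + 1 := by exact_mod_cast h6
  omega

lemma ctr_mem_cell {p q : ℤ × ℤ} (h : ctr p ∈ cell q) : p = q := by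
  rw [mem_cell] at h
  simp only [ctr] at h
  exact Prod.ext (int_eq_of (x := (p.1 : ℝ) + 1 / 2) (by linarith) (by linarith) h.1.1 h.1.2)
    (int_eq_of (x := (p.2 : ℝ) + 1 / 2) (by linarith) (by linarith) h.2.1 h.2.2)

lemma ctr_mem_reg {C : Set (ℤ × ℤ)} {p : ℤ × ℤ} : ctr p ∈ reg C ↔ p ∈ C := by
  constructor
  · rintro ⟨q, hq, h⟩
    rwa [ctr_mem_cell h]
  · intro h
    refine ⟨p, h, mem_cell.2 ?_⟩
    simp only [ctr]
    refine ⟨⟨?_, ?_⟩, ?_, ?_⟩ <;> linarith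

lemma ctr_mem_interior {C : Set (ℤ × ℤ)} {p : ℤ × ℤ} (h : p ∈ C) : ctr p ∈ interior (reg C) := by
  have h1 : cell p ⊆ reg C := fun x hx => ⟨p, h, hx⟩
  refine interior_mono h1 ?_
  unfold cell
  rw [interior_prod_eq, interior_Icc, interior_Icc]
  simp only [ctr, mem_prod, mem_Ioo]
  refine ⟨⟨?_, ?_⟩, ?_, ?_⟩ <;> linarith

lemma floor_mem (x : ℝ × ℝ) : x ∈ cell (⌊x.1⌋, ⌊x.2⌋) :=
  mem_cell.2 ⟨⟨Int.floor_le _, (Int.lt_floor_add_one _).le⟩,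
    Int.floor_le _, (Int.lt_floor_add_one _).le⟩

lemma floor_mem_of_interior {C : Set (ℤ × ℤ)} {x : ℝ × ℝ} (h : x ∈ interior (reg C)) :
    (⌊x.1⌋, ⌊x.2⌋) ∈ C := by
  obtain ⟨ε, hε, hb⟩ := Metric.isOpen_iff.1 isOpen_interior x h
  have f1 := Int.lt_floor_add_one x.1
  have f2 := Int.lt_floor_add_one x.2
  have g1 := Int.floor_le x.1
  have g2 := Int.floor_le x.2
  obtain ⟨δ, d0, d1, d2, d3⟩ : ∃ δ : ℝ, 0 < δ ∧ δ < ε ∧ x.1 + δ < ⌊x.1⌋ + 1 ∧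
      x.2 + δ < ⌊x.2⌋ + 1 := by
    refine ⟨min ε (min (⌊x.1⌋ + 1 - x.1) (⌊x.2⌋ + 1 - x.2)) / 2, ?_, ?_, ?_, ?_⟩
    · have : 0 < min ε (min (⌊x.1⌋ + 1 - x.1) (⌊x.2⌋ + 1 - x.2)) :=
        lt_min hε (lt_min (by linarith) (by linarith))
      linarith
    · have := min_le_left ε (min (⌊x.1⌋ + 1 - x.1) (⌊x.2⌋ + 1 - x.2))
      linarith
    · have := (min_le_right ε (min (⌊x.1⌋ + 1 - x.1) (⌊x.2⌋ + 1 - x.2))).trans (min_le_left _ _)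
      linarith
    · have := (min_le_right ε (min (⌊x.1⌋ + 1 - x.1) (⌊x.2⌋ + 1 - x.2))).trans (min_le_right _ _)
      linarith
  have hy : (x.1 + δ, x.2 + δ) ∈ Metric.ball x ε := by
    rw [Metric.mem_ball, Prod.dist_eq]
    simp [abs_of_pos d0, d1]
  obtain ⟨p, hp, hc⟩ := interior_subset (hb hy)
  rw [mem_cell] at hc
  have e1 : ⌊x.1⌋ = p.1 := int_eq_of (x := x.1 + δ) (by linarith) d2 hc.1.1 hc.1.2
  have e2 : ⌊x.2⌋ = p.2 := int_eq_of (x := x.2 + δ) (by linarith) d3 hc.2.1 hc.2.2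
  rw [e1, e2]
  exact hp

lemma image_reg (C : Set (ℤ × ℤ)) (a b : ℤ) :
    (fun x : ℝ × ℝ => (x.1 + (a : ℝ), x.2 + (b : ℝ))) '' reg C =
      reg {z | (z.1 - a, z.2 - b) ∈ C} := by
  ext x
  constructor
  · rintro ⟨y, ⟨p, hp, hy⟩, rfl⟩
    refine ⟨(p.1 + a, p.2 + b), by simpa using hp, ?_⟩
    rw [mem_cell] at hy ⊢
    push_cast
    refine ⟨⟨?_, ?_⟩, ?_, ?_⟩ <;> linarith [hy.1.1, hy.1.2, hy.2.1, hy.2.2]
  · rintro ⟨p, hp, hx⟩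
    refine ⟨(x.1 - a, x.2 - b), ⟨_, hp, ?_⟩, by simp⟩
    rw [mem_cell] at hx ⊢
    push_cast
    refine ⟨⟨?_, ?_⟩, ?_, ?_⟩ <;> linarith [hx.1.1, hx.1.2, hx.2.1, hx.2.2]

lemma fund_cells {m n : ℕ} {C : Set (ℤ × ℤ)} (h : IsFundDomain m n (reg C)) (z : ℤ × ℤ) :
    ∃! l : ℤ × ℤ, (z.1 - n * l.1, z.2 - m * l.2) ∈ C := by
  have e : ∀ l : ℤ × ℤ, (fun x : ℝ × ℝ => (x.1 + (n : ℝ) * l.1, x.2 + (m : ℝ) * l.2)) '' reg C =
      reg {z | (z.1 - n * l.1, z.2 - m * l.2) ∈ C} := by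
    intro l
    rw [← image_reg]
    push_cast
    rfl
  obtain ⟨h1, h2⟩ := h
  simp only [e] at h1 h2
  obtain ⟨l, hl⟩ := mem_iUnion.1 (h1 ▸ mem_univ (ctr z))
  have hl' := ctr_mem_reg.1 hl
  refine ⟨l, hl', fun l' hl'' => ?_⟩
  by_contra hne
  exact Set.disjoint_left.1 (h2 hne) (ctr_mem_interior hl'') (ctr_mem_interior hl')

/-- The tile of orientation `k` at `v`. -/
def tile (k : K) (v : ℤ × ℤ) : Set (ℝ × ℝ) := reg {z | Mem k v z}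

lemma copy_of {k : K} {v : ℤ × ℤ} {f : ℝ × ℝ → ℝ × ℝ} (hf : IsGridIso f)
    (hs : Function.Surjective f)
    (h : ∀ (x : ℝ × ℝ) (p : ℤ × ℤ), f x ∈ cell p ↔ x ∈ cell (fl k (p.1 - v.1, p.2 - v.2))) :
    IsCopy (reg {p | p ∈ L}) (tile k v) := by
  refine ⟨f, hf, ?_⟩
  ext y
  obtain ⟨x, rfl⟩ := hs y
  constructor
  · rintro ⟨p, hp, hx⟩
    exact ⟨x, ⟨_, hp, (h x p).1 hx⟩, rfl⟩
  · rintro ⟨x', ⟨u, hu, hx'⟩, e⟩
    rw [← e]
    refine ⟨((fl k u).1 + v.1, (fl k u).2 + v.2), ?_, (h _ _).2 ?_⟩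
    · show Mem k v _
      unfold Mem
      simp only [add_sub_cancel_right, Prod.mk.eta, fl_fl]
      exact hu
    · simp only [add_sub_cancel_right, Prod.mk.eta, fl_fl]
      exact hx'

lemma isCopy_tile (k : K) (v : ℤ × ℤ) : IsCopy (reg {p | p ∈ L}) (tile k v) := by
  by_cases h1 : k.1 = 0 <;> by_cases h2 : k.2 = 0
  · refine copy_of (f := fun x => (((1 : ℤ) : ℝ) * x.1 + (v.1 : ℤ), ((1 : ℤ) : ℝ) * x.2 + (v.2 : ℤ)))
      ⟨1, 1, v.1, v.2, Or.inl rfl, Or.inl rfl, Or.inl fun _ => rfl⟩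
      (fun y => ⟨(y.1 - v.1, y.2 - v.2), by simp⟩) fun x p => ?_
    simp only [fl, h1, h2, if_true, mem_cell]
    push_cast
    constructor <;> rintro ⟨⟨a1, a2⟩, a3, a4⟩ <;> refine ⟨⟨?_, ?_⟩, ?_, ?_⟩ <;> linarith
  · refine copy_of (f := fun x => (((1 : ℤ) : ℝ) * x.2 + (v.1 : ℤ), ((1 : ℤ) : ℝ) * x.1 + (v.2 : ℤ)))
      ⟨1, 1, v.1, v.2, Or.inl rfl, Or.inl rfl, Or.inr fun _ => rfl⟩
      (fun y => ⟨(y.2 - v.2, y.1 - v.1), by simp⟩) fun x p => ?_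
    simp only [fl, h1, h2, if_true, if_false, mem_cell]
    push_cast
    constructor <;> rintro ⟨⟨a1, a2⟩, a3, a4⟩ <;> refine ⟨⟨?_, ?_⟩, ?_, ?_⟩ <;> linarith
  · refine copy_of (f := fun x => (((-1 : ℤ) : ℝ) * x.2 + ((v.1 + 1 : ℤ) : ℝ),
        ((-1 : ℤ) : ℝ) * x.1 + ((v.2 + 1 : ℤ) : ℝ)))
      ⟨-1, -1, v.1 + 1, v.2 + 1, Or.inr rfl, Or.inr rfl, Or.inr fun _ => rfl⟩
      (fun y => ⟨(v.2 + 1 - y.2, v.1 + 1 - y.1), by simp⟩) fun x p => ?_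
    simp only [fl, h1, h2, if_true, if_false, mem_cell]
    push_cast
    constructor <;> rintro ⟨⟨a1, a2⟩, a3, a4⟩ <;> refine ⟨⟨?_, ?_⟩, ?_, ?_⟩ <;> linarith
  · refine copy_of (f := fun x => (((-1 : ℤ) : ℝ) * x.1 + ((v.1 + 1 : ℤ) : ℝ),
        ((-1 : ℤ) : ℝ) * x.2 + ((v.2 + 1 : ℤ) : ℝ)))
      ⟨-1, -1, v.1 + 1, v.2 + 1, Or.inr rfl, Or.inr rfl, Or.inl fun _ => rfl⟩
      (fun y => ⟨(v.1 + 1 - y.1, v.2 + 1 - y.2), by simp⟩) fun x p => ?_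
    simp only [fl, h1, h2, if_false, mem_cell]
    push_cast
    constructor <;> rintro ⟨⟨a1, a2⟩, a3, a4⟩ <;> refine ⟨⟨?_, ?_⟩, ?_, ?_⟩ <;> linarith

/-- Every entry of the second list is adjacent to an earlier cell. -/
def chk : List (ℤ × ℤ) → List (ℤ × ℤ) → Bool
  | _, [] => true
  | d, q :: t => d.any (fun p => |p.1 - q.1| + |p.2 - q.2| == 1) && chk (q :: d) t

lemma chk_sound (C : Finset (ℤ × ℤ)) (o : ℤ × ℤ) : ∀ (t d : List (ℤ × ℤ)), chk d t = true →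
    (∀ p ∈ t, p ∈ C) →
    (∀ p ∈ d, p ∈ C ∧ Relation.ReflTransGen (fun a b => a ∈ C ∧ b ∈ C ∧ Adj a b) o p) →
    ∀ p ∈ t, Relation.ReflTransGen (fun a b => a ∈ C ∧ b ∈ C ∧ Adj a b) o p := by
  intro t
  induction t with
  | nil => intro _ _ _ _ p hp; simp at hp
  | cons q t ih =>
    intro d h hC hd
    simp only [chk, Bool.and_eq_true, List.any_eq_true, beq_iff_eq] at h
    obtain ⟨⟨p, hp, hpq⟩, h2⟩ := h
    have hq : q ∈ C := hC q (by simp)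
    have hr := (hd p hp).2.tail ⟨(hd p hp).1, hq, hpq⟩
    intro x hx
    rcases List.mem_cons.1 hx with rfl | hx
    · exact hr
    · refine ih (q :: d) h2 (fun y hy => hC y (by simp [hy])) (fun y hy => ?_) x hx
      rcases List.mem_cons.1 hy with rfl | hy
      · exact ⟨hq, hr⟩
      · exact hd y hy

lemma isPolyomino : IsPolyomino (reg {p | p ∈ L}) := by
  refine ⟨L.toFinset, ⟨(0, 0), by simp [L]⟩, ?_, ?_⟩
  · have h0 : ∀ p ∈ L.toFinset, Relation.ReflTransGen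
        (fun a b => a ∈ L.toFinset ∧ b ∈ L.toFinset ∧ Adj a b) (0, 0) p := by
      intro p hp
      have hL : L = (0, 0) :: L.tail := rfl
      have hp' : p ∈ (0, 0) :: L.tail := hL ▸ List.mem_toFinset.1 hp
      rcases List.mem_cons.1 hp' with rfl | hp'
      · exact Relation.ReflTransGen.refl
      · refine chk_sound L.toFinset (0, 0) L.tail [(0, 0)] (by decide +kernel)
          (fun x hx => List.mem_toFinset.2 (List.mem_of_mem_tail hx)) (fun x hx => ?_) p hp'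
        rw [List.mem_singleton.1 hx]
        exact ⟨by simp [L], Relation.ReflTransGen.refl⟩
    intro p hp q hq
    refine Relation.ReflTransGen.trans ?_ (h0 q hq)
    have hsymm : ∀ {a b : ℤ × ℤ}, Relation.ReflTransGen
        (fun a b => a ∈ L.toFinset ∧ b ∈ L.toFinset ∧ Adj a b) a b → Relation.ReflTransGen
        (fun a b => a ∈ L.toFinset ∧ b ∈ L.toFinset ∧ Adj a b) b a := by
      intro a b h
      induction h with
      | refl => exact Relation.ReflTransGen.refl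
      | tail _ h2 ih =>
        refine Relation.ReflTransGen.head ⟨h2.2.1, h2.1, ?_⟩ ih
        have := h2.2.2
        unfold Adj at this ⊢
        rwa [abs_sub_comm, abs_sub_comm (Prod.snd _)]
    exact hsymm (h0 p hp)
  · ext x
    simp [reg]

theorem main : ∃ (P : Set (ℝ × ℝ)) (T : Set (Set (ℝ × ℝ))), IsPolyomino P ∧ IsTiling P T ∧
    ∀ m n : ℕ, 1 ≤ m → 1 ≤ n → ∀ S ⊆ T, ¬ IsFundDomain m n (⋃₀ S) := by
  obtain ⟨r, c, hs⟩ := seqs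
  refine ⟨reg {p | p ∈ L}, {Q | ∃ i j, Q = tile (r j, c i) (pos i j)}, isPolyomino,
    ⟨?_, ?_, ?_⟩, ?_⟩
  · rintro Q ⟨i, j, rfl⟩
    exact isCopy_tile _ _
  · refine eq_univ_of_forall fun x => ?_
    obtain ⟨i, j, h⟩ := cover r c (⌊x.1⌋, ⌊x.2⌋)
    exact mem_iUnion.2 ⟨⟨_, i, j, rfl⟩, _, h, floor_mem x⟩
  · rintro ⟨_, i, j, rfl⟩ ⟨_, i', j', rfl⟩ hne
    refine Set.disjoint_left.2 fun x h1 h2 => hne ?_
    obtain ⟨rfl, rfl⟩ := disj r c (floor_mem_of_interior h1) (floor_mem_of_interior h2)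
    rfl
  · intro m n hm hn S hS hF
    have e : ⋃₀ S = reg {z | ∃ i j, tile (r j, c i) (pos i j) ∈ S ∧
        Mem (r j, c i) (pos i j) z} := by
      ext x
      constructor
      · rintro ⟨Q, hQ, hx⟩
        obtain ⟨i, j, rfl⟩ := hS hQ
        obtain ⟨p, hp, hx⟩ := hx
        exact ⟨p, ⟨i, j, hQ, hp⟩, hx⟩
      · rintro ⟨p, ⟨i, j, h1, h2⟩, hx⟩
        exact ⟨_, h1, p, h2, hx⟩
    rw [e] at hF
    exact no_torus r c hs m n hm hn (fun i j => tile (r j, c i) (pos i j) ∈ S) (fund_cells hF)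

end Pool.Agent.H413Z.Torus
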